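import Pool.Agent.H63R3.FreqWords

/-!
# The frequency order conjecture fails

Letters: `true` is `1`, `false` is `0`. For `v = 0000` and `w = 0010` one has `|v|₁ < |w|₁` but
`ρ^v < ρ^w` (about `0.566` and `0.582`).
-/

set_option autoImplicit false

open Filter Topology

namespace Pool.Agent.Results.MP_1f54e8_co.OrderFails

/-- The number of ones of a word. -/
def ones (u : List Bool) : ℕ := u.count true

/-- The words of length `n` that do not contain `w` as a factor. -/
def Omega (w : List Bool) (n : ℕ) : Finset (Fin n → Bool) :=
  Finset.univ.filter fun u => ¬ w <:+: List.ofFn u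

/-- `ρ^w = ρ`: the sum of `|u|₁` over the `w`-avoiding words `u` of length `n`, divided by `n`
times their number, tends to `ρ`. -/
def HasFrequency (w : List Bool) (ρ : ℝ) : Prop :=
  Tendsto (fun n : ℕ => (∑ u ∈ Omega w n, (ones (List.ofFn u) : ℝ)) /
    ((n : ℝ) * ((Omega w n).card : ℝ))) atTop (𝓝 ρ)

/-- The excluded words `1^(k-1) 0`, `1 0^(k-1)`, `0^(k-1) 1`, `0 1^(k-1)` for `k ≥ 2`. -/
def R : Set (List Bool) :=
  {w | ∃ k : ℕ, 2 ≤ k ∧ (w = List.replicate (k - 1) true ++ [false] ∨
    w = true :: List.replicate (k - 1) false ∨ w = List.replicate (k - 1) false ++ [true] ∨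
    w = false :: List.replicate (k - 1) true)}

theorem mem_R_length {w : List Bool} (hw : w ∈ R) (h4 : w.length = 4) :
    w = [true, true, true, false] ∨ w = [true, false, false, false] ∨
    w = [false, false, false, true] ∨ w = [false, true, true, true] := by
  obtain ⟨k, hk, h⟩ := hw
  have hk4 : k = 4 := by
    rcases h with rfl | rfl | rfl | rfl <;>
      simp only [List.length_append, List.length_replicate, List.length_cons, List.length_nil] at h4 <;>
      omega
  subst hk4
  simpa using h

/-- The words `v = 0000` and `w = 0010` are not excluded, have the same length, and `v` has fewer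
ones than `w`, but `ρ^v < ρ^w`. -/
theorem result : ∃ v w : List Bool, v = [false, false, false, false] ∧
    w = [false, false, true, false] ∧ v ∉ R ∧ w ∉ R ∧ v.length = w.length ∧ ones v < ones w ∧
    ∃ ρv ρw : ℝ, HasFrequency v ρv ∧ HasFrequency w ρw ∧ ρv < ρw := by
  refine ⟨_, _, rfl, rfl, ?_, ?_, rfl, by decide, ?_⟩
  · intro h
    have := mem_R_length h rfl
    revert this
    decide
  · intro h
    have := mem_R_length h rfl
    revert this
    decide
  · exact Pool.Agent.H63R3.Freq.main

end Pool.Agent.Results.MP_1f54e8_co.OrderFails
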